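import Mathlib
import Pool.Agent.Helper8.MG.All

/-!
Let `F` be a field of characteristic zero and `E₄` the algebra of the lower triangular `4 × 4`
matrices over `F` whose first and last diagonal entries are equal. **No** variety of associative
algebras over `F` (unital or not) which satisfies a nontrivial identity and contains `E₄` is
Magnus. In particular the varieties `M(n)`, `n ≥ 3`, and `S(n)`, `n ≥ 6`, are not Magnus; earlier
results of this library cover `M(n)`, `n ≥ 4`, and `S(n)`, `n ≥ 8`.

Idea of the proof. As in the earlier results the relation `P(z) + z Θ - Θ z = 0` makes available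
orthogonal idempotents `e_p`, `p` in a finite set of vertices, and one relation of each type
`(p, q)`, `p ≠ q`. In `3 × 3` matrices every word is supported on at most three vertices, and then
there are too few relations for a direct simulation of a generalised Collatz map: every state
lies in one row relation and one column relation only. New here: two commuting loops `α₁, α₂` at
the base vertex, and relations `α₁ = 0`, `α₂ = 0` or `α₁ = α₂` on the columns. Multiplied with
`α₁` and with `α₂` the single relation `u + v = w` between three columns of the three types gives
the two relations `α₁ u = α₁ w`, `α₂ v = α₂ w = α₁ w` (up to the order of the loops), that is, one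
relation copies a state to two others.
-/

namespace Pool.Agent.Results.MP_7596fa_lc.MatricesOfSizeThree

/-- The ideal of the noncommutative polynomials without constant term. -/
def noConst (F : Type*) [Field F] (k : ℕ) : TwoSidedIdeal (FreeAlgebra F (Fin k)) :=
  TwoSidedIdeal.span (Set.range (FreeAlgebra.ι F : Fin k → FreeAlgebra F (Fin k)))

/-- The values of the noncommutative polynomials of the set `T` (in countably many variables) on
the free algebra of rank `k`; for `unital = false` only the values on elements without constant
term. -/
def values (F : Type*) [Field F] (T : Set (FreeAlgebra F ℕ)) (k : ℕ) (unital : Bool) :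
    Set (FreeAlgebra F (Fin k)) :=
  {p | ∃ r ∈ T, ∃ y : ℕ → FreeAlgebra F (Fin k), (unital = false → ∀ i, y i ∈ noConst F k) ∧
    p = FreeAlgebra.lift F y r}

/-- The relatively free algebra of rank `k` in the variety with the identities `T`: the free
associative algebra modulo the ideal generated by the values of `T`. For `unital = false` this is
the relatively free algebra of the variety of all (not necessarily unital) algebras with the
identities `T`, with a unit adjoined; for `unital = true` it is the relatively free algebra of
the variety of unital algebras. -/
abbrev RelFree (F : Type*) [Field F] (T : Set (FreeAlgebra F ℕ)) (k : ℕ) (unital : Bool) :=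
  (TwoSidedIdeal.span (values F T k unital)).ringCon.Quotient

/-- The free generators of the relatively free algebra. -/
def gen (F : Type*) [Field F] (T : Set (FreeAlgebra F ℕ)) (k : ℕ) (unital : Bool) (i : Fin k) :
    RelFree F T k unital :=
  (TwoSidedIdeal.span (values F T k unital)).ringCon.mk' (FreeAlgebra.ι F i)

/-- A noncommutative polynomial with integer coefficients and zero constant term is given as a
finite list of signed nonempty words `± x_i x_j ⋯` (the first letter and the list of the other
letters); this is its value in the relatively free algebra. -/
def value (F : Type*) [Field F] (T : Set (FreeAlgebra F ℕ)) (k : ℕ) (unital : Bool)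
    (g : List (Bool × Fin k × List (Fin k))) : RelFree F T k unital :=
  (g.map fun t => (if t.1 then 1 else -1) *
    (gen F T k unital t.2.1 * (t.2.2.map (gen F T k unital)).prod)).sum

/-- The variety with the identities `T` is not Magnus, by an algebra with `k` generators: there is
an element `f` of the relatively free algebra of rank `k`, lying in the ideal generated by the free
generators, such that no algorithm decides, for a noncommutative polynomial `g` with integer
coefficients and no constant term, whether its value lies in the two-sided ideal generated
by `f`. -/
def NotMagnus (F : Type*) [Field F] (T : Set (FreeAlgebra F ℕ)) (k : ℕ) (unital : Bool) : Prop :=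
  ∃ f : RelFree F T k unital, f ∈ TwoSidedIdeal.span (Set.range (gen F T k unital)) ∧
    ¬ ComputablePred fun g : List (Bool × Fin k × List (Fin k)) =>
        value F T k unital g ∈ TwoSidedIdeal.span {f}

/-- The algebra `E₄` of the lower triangular `4 × 4` matrices with equal first and last diagonal
entry. -/
def E4 (F : Type*) [Field F] : Set (Matrix (Fin 4) (Fin 4) F) :=
  {A | (∀ i j, i < j → A i j = 0) ∧ A 0 0 = A 3 3}

/-- `r` is an identity of the algebra formed by the elements of `S`. -/
def Identity {F B : Type*} [Field F] [Ring B] [Algebra F B] (S : Set B) (r : FreeAlgebra F ℕ) :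
    Prop :=
  ∀ a : ℕ → B, (∀ i, a i ∈ S) → FreeAlgebra.lift F a r = 0

/-- The standard polynomial `s_n = ∑_σ sgn(σ) x_{σ(1)} ⋯ x_{σ(n)}`. -/
def standard (F : Type*) [Field F] (n : ℕ) : FreeAlgebra F ℕ :=
  ∑ σ : Equiv.Perm (Fin n),
    Equiv.Perm.sign σ • (List.ofFn fun i => FreeAlgebra.ι F ((σ i : Fin n) : ℕ)).prod

/-- **Main theorem.** Let `F` be a field of characteristic zero.
(1) Every variety of associative algebras over `F` (all of them, or the unital ones) defined by a
set `T` of identities of `E₄` which contains a nonzero polynomial is not Magnus, by an algebra
with three generators and one relation.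
(2) For `n ≥ 3` the variety `M(n)`, defined by all identities of the `n × n` matrices over `F`, is
not Magnus.
(3) For `n ≥ 6` the variety `S(n)` defined by the standard identity `s_n = 0` is not Magnus. -/
theorem result (F : Type*) [Field F] [CharZero F] :
    (∀ T : Set (FreeAlgebra F ℕ), (∃ r ∈ T, r ≠ 0) → (∀ r ∈ T, Identity (E4 F) r) →
      ∀ unital : Bool, NotMagnus F T 3 unital) ∧
    (∀ n : ℕ, 3 ≤ n → ∀ unital : Bool,
      NotMagnus F {r | Identity (Set.univ : Set (Matrix (Fin n) (Fin n) F)) r} 3 unital) ∧
    (∀ n : ℕ, 6 ≤ n → ∀ unital : Bool, NotMagnus F {standard F n} 3 unital) := by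
  have hA : ∀ T : Set (FreeAlgebra F ℕ), (∃ r ∈ T, r ≠ 0) → (∀ r ∈ T, Identity (E4 F) r) →
      ∀ unital : Bool, NotMagnus F T 3 unital := fun T h1 h2 unital =>
    Pool.Agent.Helper8.MG.All.main F T h1
      (fun r hr A hA => h2 r hr A fun i => ⟨(hA i).low, (hA i).eq⟩) unital
  refine ⟨hA, fun n hn unital => ?_, fun n hn unital => ?_⟩
  · refine hA {r | Identity (Set.univ : Set (Matrix (Fin n) (Fin n) F)) r}
      ⟨Pool.Agent.Helper8.MG.standard F (n * n + 1), ?_,
      Pool.Agent.Helper8.MG.All.standard_ne F _⟩ (fun r hr A hA' => ?_) unital
    · exact fun A _ => Pool.Agent.Helper8.MG.All.standard_mat F n A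
    · exact Pool.Agent.Helper8.MG.All.mat F n hn r (fun B => hr B fun _ => Set.mem_univ _) A
        fun i => ⟨(hA' i).1, (hA' i).2⟩
  · refine hA {standard F n} ⟨standard F n, Set.mem_singleton _,
      Pool.Agent.Helper8.MG.All.standard_ne F n⟩ (fun r hr A hA' => ?_) unital
    rw [Set.mem_singleton_iff] at hr
    subst hr
    exact Pool.Agent.Helper8.MG.All.standard_tri F n hn A fun i => ⟨(hA' i).1, (hA' i).2⟩

end Pool.Agent.Results.MP_7596fa_lc.MatricesOfSizeThree
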